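import Mathlib

set_option autoImplicit false
open Finset
open scoped ENNReal NNReal

namespace Pool.Agent.Results.MP_ca3f0d_an.PowersOfTwo

/-- The `k`-sphere `S_{d,k}(r)`: the `m ∈ ℤ^d` with `|m_1|^k + ... + |m_d|^k = r^k`. -/
def sphere (d k : ℕ) (r : ℝ) : Set (Fin d → ℤ) := {m | ∑ i, |(m i : ℝ)| ^ k = r ^ k}

/-- The admissible radii: `r > 0` with `r^k ∈ ℕ` and `N_{d,k}(r) > 0`. -/
def radii (d k : ℕ) : Set ℝ := {r | 0 < r ∧ (∃ n : ℕ, r ^ k = n) ∧ 0 < (sphere d k r).ncard}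

/-- The `k`-spherical average `A_r f(x) = N_{d,k}(r)⁻¹ ∑_{m ∈ S_{d,k}(r)} f(x - m)`. -/
noncomputable def avg (d k : ℕ) (r : ℝ) (f : (Fin d → ℤ) → ℂ) (x : Fin d → ℤ) : ℂ :=
  ((sphere d k r).ncard : ℂ)⁻¹ * ∑ᶠ m ∈ sphere d k r, f (x - m)

/-- The `k`-spherical maximal function `A_* f(x) = sup_r |A_r f(x)|`, with values in `[0, ∞]`. -/
noncomputable def maxFn (d k : ℕ) (f : (Fin d → ℤ) → ℂ) (x : Fin d → ℤ) : ℝ≥0∞ :=
  ⨆ r ∈ radii d k, ‖avg d k r f x‖ₑ

/-- `A_*` is bounded on `ℓ^p(ℤ^d)`. -/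
def BoundedOn (d k : ℕ) (p : ℝ) : Prop :=
  ∃ C : ℝ≥0, ∀ f : (Fin d → ℤ) → ℂ, (∑' x, ‖f x‖ₑ ^ p) ^ (1 / p) ≠ ∞ →
    (∑' x, (maxFn d k f x) ^ p) ^ (1 / p) ≤ C * (∑' x, ‖f x‖ₑ ^ p) ^ (1 / p)

theorem odd_pow (a : ℕ) (ha : 1 ≤ a) (m : ℤ) (hm : Odd m) : ∃ t : ℤ, m ^ (2 ^ a) = 1 + 2 ^ (a + 2) * t := by
  induction a, ha using Nat.le_induction with
  | base =>
    obtain ⟨s, rfl⟩ := hm
    have h : Even (s * (s + 1)) := Int.even_mul_succ_self s
    obtain ⟨u, hu⟩ := h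
    refine ⟨u, ?_⟩
    have : (2 * s + 1) ^ (2 ^ 1) = 1 + 4 * (s * (s + 1)) := by ring
    rw [this, hu]; ring
  | succ a ha ih =>
    obtain ⟨t, ht⟩ := ih
    refine ⟨t + 2 ^ (a + 1) * t ^ 2, ?_⟩
    rw [pow_succ 2 a, pow_mul, ht]
    have e : (2:ℤ) ^ (a + 1 + 2) = 2 * 2 ^ (a + 2) := by rw [← pow_succ']
    have e2 : (2:ℤ) ^ (a + 2) = 2 * 2 ^ (a + 1) := by rw [← pow_succ']
    rw [e, e2]
    ring

theorem le_two_pow (a : ℕ) (ha : 2 ≤ a) : a + 2 ≤ 2 ^ a := by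
  induction a, ha using Nat.le_induction with
  | base => norm_num
  | succ a ha ih => rw [pow_succ]; omega

/-- Local obstruction at `2`: all coordinates are even. -/
theorem all_even (a d : ℕ) (ha : 2 ≤ a) (hd : d < 2 ^ (a + 2)) (m : Fin d → ℤ) (n : ℤ)
    (h : ∑ i, m i ^ (2 ^ a) = 2 ^ (2 ^ a) * n) : ∀ i, Even (m i) := by
  classical
  by_contra hc
  push Not at hc
  obtain ⟨i0, hi0⟩ := hc
  have hdvd : (2:ℤ) ^ (a + 2) ∣ 2 ^ (2 ^ a) := pow_dvd_pow 2 (le_two_pow a ha)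
  have key : (2:ℤ) ^ (a + 2) ∣ (((univ : Finset (Fin d)).filter fun i => Odd (m i)).card : ℤ) := by
    have h1 : ∀ i, (2:ℤ) ^ (a + 2) ∣ m i ^ (2 ^ a) - (if Odd (m i) then 1 else 0) := by
      intro i
      by_cases hi : Odd (m i)
      · rw [if_pos hi]
        obtain ⟨t, ht⟩ := odd_pow a (by omega) (m i) hi
        rw [ht]
        exact ⟨t, by ring⟩
      · rw [if_neg hi, sub_zero]
        rw [Int.not_odd_iff_even] at hi
        obtain ⟨s, hs⟩ := hi
        rw [hs, ← two_mul, mul_pow]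
        exact hdvd.mul_right _
    have h2 : (2:ℤ) ^ (a + 2) ∣ ∑ i, (m i ^ (2 ^ a) - (if Odd (m i) then (1:ℤ) else 0)) :=
      Finset.dvd_sum fun i _ => h1 i
    rw [Finset.sum_sub_distrib, h] at h2
    have h3 : (((univ : Finset (Fin d)).filter fun i => Odd (m i)).card : ℤ) =
        ∑ i, (if Odd (m i) then (1:ℤ) else 0) := by
      rw [Finset.card_filter]; push_cast; rfl
    rw [h3]
    have h4 := (hdvd.mul_right n).sub h2
    simpa using h4
  have hle : ((univ : Finset (Fin d)).filter fun i => Odd (m i)).card ≤ d := by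
    refine (Finset.card_filter_le _ _).trans ?_
    simp
  have hpos : 0 < ((univ : Finset (Fin d)).filter fun i => Odd (m i)).card := by
    rw [Finset.card_pos]
    exact ⟨i0, by simpa using hi0⟩
  have key2 : 2 ^ (a + 2) ∣ ((univ : Finset (Fin d)).filter fun i => Odd (m i)).card := by
    exact_mod_cast key
  have := Nat.le_of_dvd hpos key2
  omega

theorem mem_sphere_iff (a d : ℕ) (ha : 2 ≤ a) (r : ℕ) (m : Fin d → ℤ) :
    m ∈ sphere d (2 ^ a) (r : ℝ) ↔ ∑ i, m i ^ (2 ^ a) = (r : ℤ) ^ (2 ^ a) := by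
  have hev : Even (2 ^ a) := (Nat.even_pow.2 ⟨even_two, by omega⟩)
  unfold sphere
  simp only [Set.mem_ofPred_eq, hev.pow_abs]
  constructor
  · intro h; exact_mod_cast h
  · intro h; exact_mod_cast h

/-- `S(2^j)` is the dilate of `S(1)`. -/
theorem sphere_pow (a d : ℕ) (ha : 2 ≤ a) (hd : d < 2 ^ (a + 2)) (j : ℕ) :
    sphere d (2 ^ a) ((2 ^ j : ℕ) : ℝ) =
      (fun m : Fin d → ℤ => (2:ℤ) ^ j • m) '' sphere d (2 ^ a) ((1 : ℕ) : ℝ) := by
  induction j with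
  | zero => simp
  | succ j ih =>
    have h2 : sphere d (2 ^ a) ((2 ^ (j + 1) : ℕ) : ℝ) =
        (fun m : Fin d → ℤ => (2:ℤ) • m) '' sphere d (2 ^ a) ((2 ^ j : ℕ) : ℝ) := by
      ext m
      rw [Set.mem_image, mem_sphere_iff a d ha]
      constructor
      · intro h
        have h1 : ∑ i, m i ^ (2 ^ a) = 2 ^ (2 ^ a) * ((2 ^ j : ℕ) : ℤ) ^ (2 ^ a) := by
          rw [h]; push_cast; rw [← mul_pow, ← pow_succ']
        have hev := all_even a d ha hd m _ h1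
        choose q hq using hev
        refine ⟨q, ?_, ?_⟩
        · rw [mem_sphere_iff a d ha]
          have h3 : ∑ i, m i ^ (2 ^ a) = 2 ^ (2 ^ a) * ∑ i, q i ^ (2 ^ a) := by
            rw [Finset.mul_sum]
            apply Finset.sum_congr rfl
            intro i _
            rw [hq i, ← two_mul, mul_pow]
          rw [h3] at h1
          exact mul_left_cancel₀ (by positivity) h1
        · funext i
          simp only [Pi.smul_apply, smul_eq_mul]
          rw [hq i]; ring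
      · rintro ⟨q, hq, rfl⟩
        rw [mem_sphere_iff a d ha] at hq
        simp only [Pi.smul_apply, smul_eq_mul, mul_pow]
        rw [← Finset.mul_sum, hq]
        push_cast
        rw [← mul_pow, ← pow_succ']
    rw [h2, ih, Set.image_image]
    congr 1
    funext m
    rw [smul_smul, ← pow_succ']

theorem sphere_one_finite (a d : ℕ) (ha : 2 ≤ a) : (sphere d (2 ^ a) ((1 : ℕ) : ℝ)).Finite := by
  apply (Set.finite_Icc (fun _ : Fin d => (-1 : ℤ)) (fun _ => 1)).subset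
  intro m hm
  rw [mem_sphere_iff a d ha] at hm
  have hev : Even (2 ^ a) := (Nat.even_pow.2 ⟨even_two, by omega⟩)
  have h1 : ∀ i, |m i| ≤ 1 := by
    intro i
    by_contra hc
    push Not at hc
    have h2 : m i ^ (2 ^ a) ≤ ∑ i, m i ^ (2 ^ a) :=
      Finset.single_le_sum (f := fun i => m i ^ (2 ^ a)) (fun j _ => hev.pow_nonneg _)
        (Finset.mem_univ i)
    rw [hm, ← hev.pow_abs] at h2
    have h3 : (1:ℤ) < |m i| ^ (2 ^ a) := one_lt_pow₀ hc (by positivity)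
    push_cast at h2
    rw [one_pow] at h2
    omega
  constructor
  · intro i; exact (abs_le.1 (h1 i)).1
  · intro i; exact (abs_le.1 (h1 i)).2

theorem sphere_pow_ncard (a d : ℕ) (ha : 2 ≤ a) (hd : d < 2 ^ (a + 2)) (j : ℕ) :
    (sphere d (2 ^ a) ((2 ^ j : ℕ) : ℝ)).ncard = (sphere d (2 ^ a) ((1 : ℕ) : ℝ)).ncard := by
  rw [sphere_pow a d ha hd j]
  apply Set.ncard_image_of_injective
  intro x y hxy
  funext i
  have := congrFun hxy i
  simp only [Pi.smul_apply, smul_eq_mul] at this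
  exact mul_left_cancel₀ (by positivity) this

/-- **Q1 of MP_ca3f0d_an is false.** Let `k = 2^a` with `a ≥ 2` and let `1 ≤ d < 4k` (this includes
all `d` with `2k < d < 4k`, for example `k = 4` and `9 ≤ d ≤ 15`). Then the `k`-spherical maximal
operator is unbounded on `ℓ^p(ℤ^d)` for every `0 < p < ∞`, in particular on `ℓ^2(ℤ^d)`. -/
theorem result (a d : ℕ) (ha : 2 ≤ a) (hd0 : 0 < d) (hd : d < 4 * 2 ^ a) (p : ℝ) (hp : 0 < p) :
    ¬ BoundedOn d (2 ^ a) p := by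
  classical
  rintro ⟨C, hC⟩
  have hd' : d < 2 ^ (a + 2) := by
    have : 2 ^ (a + 2) = 4 * 2 ^ a := by rw [pow_add]; ring
    omega
  set k := 2 ^ a with hk
  have hk0 : k ≠ 0 := by positivity
  set N := (sphere d k ((1 : ℕ) : ℝ)).ncard with hN
  -- the unit vector
  set e : Fin d → ℤ := Pi.single ⟨0, hd0⟩ 1 with he
  have he1 : e ∈ sphere d k ((1 : ℕ) : ℝ) := by
    rw [mem_sphere_iff a d ha]
    rw [Finset.sum_eq_single (⟨0, hd0⟩ : Fin d)]
    · simp [he]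
    · intro i _ hi
      rw [he, Pi.single_eq_of_ne hi, zero_pow hk0]
    · intro h; exact absurd (Finset.mem_univ _) h
  have hNpos : 0 < N := (Set.ncard_pos (sphere_one_finite a d ha)).2 ⟨e, he1⟩
  have hmem : ∀ j : ℕ, (2:ℤ) ^ j • e ∈ sphere d k ((2 ^ j : ℕ) : ℝ) := by
    intro j
    rw [sphere_pow a d ha hd' j]
    exact ⟨e, he1, rfl⟩
  have hrad : ∀ j : ℕ, ((2 ^ j : ℕ) : ℝ) ∈ radii d k := by
    intro j
    refine ⟨by positivity, ⟨(2 ^ j) ^ k, by push_cast; rfl⟩, ?_⟩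
    rw [sphere_pow_ncard a d ha hd' j]
    exact hNpos
  -- the Dirac mass
  set f : (Fin d → ℤ) → ℂ := Pi.single 0 1 with hf
  have hfin : ∑' x, ‖f x‖ₑ ^ p = 1 := by
    rw [tsum_eq_single 0]
    · simp [hf]
    · intro x hx
      rw [hf, Pi.single_eq_of_ne hx]
      simp [hp]
  have hlow : ∀ j : ℕ, (N : ℝ≥0∞)⁻¹ ≤ maxFn d k f ((2:ℤ) ^ j • e) := by
    intro j
    unfold maxFn
    refine le_iSup₂_of_le ((2 ^ j : ℕ) : ℝ) (hrad j) ?_
    have h1 : avg d k ((2 ^ j : ℕ) : ℝ) f ((2:ℤ) ^ j • e) = (N : ℂ)⁻¹ := by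
      unfold avg
      rw [sphere_pow_ncard a d ha hd' j]
      have h2 : ∑ᶠ m ∈ sphere d k ((2 ^ j : ℕ) : ℝ), f ((2:ℤ) ^ j • e - m) = 1 := by
        rw [finsum_eq_single _ ((2:ℤ) ^ j • e)]
        · rw [finsum_eq_if, if_pos (hmem j), sub_self, hf]
          simp
        · intro m hm
          have : f ((2:ℤ) ^ j • e - m) = 0 := by
            rw [hf, Pi.single_eq_of_ne]
            intro h
            exact hm (sub_eq_zero.1 h).symm
          rw [this, finsum_zero]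
      rw [h2, mul_one]
    rw [h1]
    rw [← ofReal_norm, norm_inv, Complex.norm_natCast,
      ENNReal.ofReal_inv_of_pos (by exact_mod_cast hNpos), ENNReal.ofReal_natCast]
  have hinj : Function.Injective fun j : ℕ => (2:ℤ) ^ j • e := by
    intro i j hij
    have := congrFun hij ⟨0, hd0⟩
    simp only [Pi.smul_apply, smul_eq_mul, he, Pi.single_eq_same, mul_one] at this
    exact Nat.pow_right_injective (le_refl 2) (by exact_mod_cast this)
  have htop : ∑' x, (maxFn d k f x) ^ p = ∞ := by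
    rw [eq_top_iff]
    have h1 : ∑' j : ℕ, ((N : ℝ≥0∞)⁻¹) ^ p = ∞ := by
      rw [ENNReal.tsum_const_eq_top_of_ne_zero]
      have h2 : (N : ℝ≥0∞)⁻¹ ≠ 0 := by simp
      have h3 : 0 < ((N : ℝ≥0∞)⁻¹) ^ p := ENNReal.rpow_pos (pos_iff_ne_zero.2 h2) (by simp [hNpos.ne'])
      exact h3.ne'
    rw [← h1]
    calc ∑' j : ℕ, ((N : ℝ≥0∞)⁻¹) ^ p ≤ ∑' j : ℕ, (maxFn d k f ((2:ℤ) ^ j • e)) ^ p :=
          ENNReal.tsum_le_tsum fun j => ENNReal.rpow_le_rpow (hlow j) hp.le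
      _ ≤ ∑' x, (maxFn d k f x) ^ p :=
          ENNReal.tsum_comp_le_tsum_of_injective hinj (fun x => (maxFn d k f x) ^ p)
  have h := hC f (by rw [hfin]; simp)
  rw [hfin, htop, ENNReal.top_rpow_of_pos (by positivity), ENNReal.one_rpow, mul_one] at h
  exact absurd h (by simp)

end Pool.Agent.Results.MP_ca3f0d_an.PowersOfTwo
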